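import Pool.Agent.KS6_54.MU.Test

set_option autoImplicit false

namespace Pool.Agent.KS6_54.MU

theorem c13 : (List.range 14).all (fun n => (List.range (n - 1)).all (fun k => ok k n)) = true := by
  decide +kernel

theorem e18 : (List.range 7).all (fun j => ok (j + 12) (j + 14)) = true := by
  decide +kernel

end Pool.Agent.KS6_54.MU
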