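import Pool.Agent.KS6_54.MU.Test

set_option autoImplicit false

namespace Pool.Agent.KS6_54.MU

theorem d26 : ok 26 28 = true := by decide +kernel

theorem d27 : ok 27 29 = true := by decide +kernel

end Pool.Agent.KS6_54.MU
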