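import Pool.Agent.KS6_54.MU.Poly

set_option autoImplicit false

/-!
The expected number of occurrences of a consecutive pattern, given the number of inversions.
-/

namespace Pool.Agent.KS6_54.MU

open Finset Polynomial

open Classical in
/-- The number of occurrences of the consecutive pattern `π` in `σ`. -/
noncomputable def occ {k n : ℕ} (π : Equiv.Perm (Fin k)) (σ : Equiv.Perm (Fin n)) : ℕ :=
  #{i ∈ range (n + 1) | OccursAt π σ i}

/-- The expected number of occurrences of `π` in a uniformly random permutation of length `n` with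
exactly `m` inversions. -/
noncomputable def E (n m : ℕ) {k : ℕ} (π : Equiv.Perm (Fin k)) : ℚ :=
  (∑ σ : Equiv.Perm (Fin n) with inv σ = m, (occ π σ : ℚ)) /
    (#{σ : Equiv.Perm (Fin n) | inv σ = m} : ℕ)

lemma cnt (n m : ℕ) : ((#{σ : Equiv.Perm (Fin n) | inv σ = m} : ℕ) : ℤ) =
    (∏ j ∈ range n, qi j).coeff m := by
  rw [← P_prod, P, coeff_sum]

open Classical in
lemma cnt_occ {k n : ℕ} (π : Equiv.Perm (Fin k)) (m i : ℕ) :
    ((#{σ ∈ ({σ : Equiv.Perm (Fin n) | inv σ = m} : Finset _) | OccursAt π σ i} : ℕ) : ℤ) =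
      if i + k ≤ n then (X ^ inv π * ∏ j ∈ Ico k n, qi j).coeff m else 0 := by
  split_ifs with h
  · rw [← Cb_eq h, ← occ_gf h π, coeff_sum, Finset.filter_filter, Finset.filter_filter]
    congr 2
    ext σ
    simp only [Finset.mem_filter, Finset.mem_univ, true_and, and_comm]
  · rw [Nat.cast_eq_zero, Finset.card_eq_zero, Finset.filter_eq_empty_iff]
    intro σ _ ho
    exact h ho.1

open Classical in
lemma sum_occ {k n : ℕ} (hk : k ≤ n) (π : Equiv.Perm (Fin k)) (m : ℕ) :
    (∑ σ : Equiv.Perm (Fin n) with inv σ = m, (occ π σ : ℤ)) =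
      ((n : ℤ) + 1 - k) * (X ^ inv π * ∏ j ∈ Ico k n, qi j).coeff m := by
  have h1 : (∑ σ : Equiv.Perm (Fin n) with inv σ = m, (occ π σ : ℤ)) =
      ∑ i ∈ range (n + 1),
        ((#{σ ∈ ({σ : Equiv.Perm (Fin n) | inv σ = m} : Finset _) | OccursAt π σ i} : ℕ) : ℤ) := by
    simp only [occ, Finset.card_filter (fun i => OccursAt π _ i),
      Finset.card_filter (fun σ => OccursAt π σ _)]
    push_cast
    rw [Finset.sum_comm]
  rw [h1, Finset.sum_congr rfl fun i _ => cnt_occ π m i, ← Finset.sum_filter, Finset.sum_const,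
    nsmul_eq_mul]
  congr 1
  have : (range (n + 1)).filter (fun i => i + k ≤ n) = range (n + 1 - k) := by
    ext i
    simp only [Finset.mem_filter, Finset.mem_range]
    omega
  rw [this, Finset.card_range]
  push_cast [show k ≤ n + 1 by omega]
  ring

/-- **The exact formula.** -/
theorem E_eq {k n : ℕ} (hk : k ≤ n) (π : Equiv.Perm (Fin k)) (m : ℕ) :
    E n m π = ((n : ℚ) + 1 - k) * ((X ^ inv π * ∏ j ∈ Ico k n, qi j).coeff m : ℤ) /
      ((∏ j ∈ range n, qi j).coeff m : ℤ) := by
  rw [E, ← cnt]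
  congr 1
  have h := congrArg (fun z : ℤ => (z : ℚ)) (sum_occ hk π m)
  push_cast at h
  exact h

end Pool.Agent.KS6_54.MU
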