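import Mathlib

set_option autoImplicit false

/-!
Inversions of permutations and blocks of consecutive positions.
-/

namespace Pool.Agent.KS6_54.MU

open Finset

/-- The number of inversions of a permutation. -/
def inv {n : ℕ} (σ : Equiv.Perm (Fin n)) : ℕ :=
  #{p : Fin n × Fin n | p.1 < p.2 ∧ σ p.2 < σ p.1}

/-- The consecutive pattern `π` occurs in `σ` at the positions `i, i + 1, …, i + k - 1`
(positions are counted from `0`). -/
def OccursAt {k n : ℕ} (π : Equiv.Perm (Fin k)) (σ : Equiv.Perm (Fin n)) (i : ℕ) : Prop :=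
  ∃ h : i + k ≤ n, ∀ a b : Fin k,
    σ ⟨i + a, by omega⟩ < σ ⟨i + b, by omega⟩ ↔ π a < π b

/-- The positions of a block. -/
def blk {k n i : ℕ} (h : i + k ≤ n) : Fin k ↪ Fin n :=
  ⟨fun a => ⟨i + a, by omega⟩, fun a b hab => by
    have := congrArg Fin.val hab
    simp only at this
    exact Fin.ext (by omega)⟩

lemma blk_val {k n i : ℕ} (h : i + k ≤ n) (a : Fin k) : ((blk h a : Fin n) : ℕ) = i + a := rfl

lemma mem_blk {k n i : ℕ} (h : i + k ≤ n) (x : Fin n) :
    x ∈ Set.range (blk h) ↔ i ≤ (x : ℕ) ∧ (x : ℕ) < i + k := by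
  constructor
  · rintro ⟨a, rfl⟩
    rw [blk_val]
    omega
  · rintro ⟨h1, h2⟩
    exact ⟨⟨x - i, by omega⟩, Fin.ext (by rw [blk_val]; simp only; omega)⟩

/-- Permutations of the block. -/
noncomputable def io {k n i : ℕ} (h : i + k ≤ n) : Equiv.Perm (Fin k) →* Equiv.Perm (Fin n) :=
  Equiv.Perm.viaEmbeddingHom (blk h)

lemma io_apply {k n i : ℕ} (h : i + k ≤ n) (π : Equiv.Perm (Fin k)) (a : Fin k) :
    io h π (blk h a) = blk h (π a) := by
  rw [io, Equiv.Perm.viaEmbeddingHom_apply, Equiv.Perm.viaEmbedding_apply]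

lemma io_not {k n i : ℕ} (h : i + k ≤ n) (π : Equiv.Perm (Fin k)) (x : Fin n)
    (hx : x ∉ Set.range (blk h)) : io h π x = x := by
  rw [io, Equiv.Perm.viaEmbeddingHom_apply, Equiv.Perm.viaEmbedding_apply_of_notMem _ _ _ hx]

lemma io_mem {k n i : ℕ} (h : i + k ≤ n) (π : Equiv.Perm (Fin k)) (x : Fin n) :
    io h π x ∈ Set.range (blk h) ↔ x ∈ Set.range (blk h) := by
  constructor
  · intro hx
    by_contra hn
    rw [io_not h π x hn] at hx
    exact hn hx
  · rintro ⟨a, rfl⟩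
    rw [io_apply]
    exact ⟨_, rfl⟩

lemma io_lt {k n i : ℕ} (h : i + k ≤ n) (π : Equiv.Perm (Fin k)) (x y : Fin n)
    (hxy : ¬ (x ∈ Set.range (blk h) ∧ y ∈ Set.range (blk h))) :
    io h π x < io h π y ↔ x < y := by
  by_cases hx : x ∈ Set.range (blk h)
  · have hy : y ∉ Set.range (blk h) := fun hy => hxy ⟨hx, hy⟩
    rw [io_not h π y hy]
    have h1 := (mem_blk h _).1 ((io_mem h π x).2 hx)
    have h2 := (mem_blk h _).1 hx
    rw [mem_blk] at hy
    rw [Fin.lt_def, Fin.lt_def]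
    omega
  · rw [io_not h π x hx]
    by_cases hy : y ∈ Set.range (blk h)
    · have h1 := (mem_blk h _).1 ((io_mem h π y).2 hy)
      have h2 := (mem_blk h _).1 hy
      rw [mem_blk] at hx
      rw [Fin.lt_def, Fin.lt_def]
      omega
    · rw [io_not h π y hy]

open Classical in
/-- Rearranging a block of increasing entries by `π` adds `inv π` inversions. -/
lemma inv_mul {k n i : ℕ} (h : i + k ≤ n) (σ : Equiv.Perm (Fin n)) (π : Equiv.Perm (Fin k))
    (hσ : StrictMono (σ ∘ blk h)) : inv (σ * io h π) = inv σ + inv π := by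
  let B : Fin n × Fin n → Prop := fun p => p.1 ∈ Set.range (blk h) ∧ p.2 ∈ Set.range (blk h)
  have e1 : inv (σ * io h π) =
      #{p ∈ ({p : Fin n × Fin n | p.1 < p.2 ∧ (σ * io h π) p.2 < (σ * io h π) p.1} : Finset _) |
        B p} +
      #{p ∈ ({p : Fin n × Fin n | p.1 < p.2 ∧ (σ * io h π) p.2 < (σ * io h π) p.1} : Finset _) |
        ¬ B p} := by
    rw [inv, Finset.card_filter_add_card_filter_not]
  have e2 : inv σ =
      #{p ∈ ({p : Fin n × Fin n | p.1 < p.2 ∧ σ p.2 < σ p.1} : Finset _) | B p} +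
      #{p ∈ ({p : Fin n × Fin n | p.1 < p.2 ∧ σ p.2 < σ p.1} : Finset _) | ¬ B p} := by
    rw [inv, Finset.card_filter_add_card_filter_not]
  have e3 : #{p ∈ ({p : Fin n × Fin n | p.1 < p.2 ∧ σ p.2 < σ p.1} : Finset _) | B p} = 0 := by
    rw [Finset.card_eq_zero, Finset.filter_eq_empty_iff]
    rintro ⟨x, y⟩ hp ⟨⟨a, ha⟩, ⟨b, hb⟩⟩
    simp only [Finset.mem_filter, Finset.mem_univ, true_and] at hp
    simp only at ha hb
    subst ha
    subst hb
    obtain ⟨h1, h2⟩ := hp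
    have h3 : a < b := by
      rw [Fin.lt_def, blk_val, blk_val] at h1
      rw [Fin.lt_def]; omega
    exact absurd (hσ h3) (not_lt.2 h2.le)
  have e4 : #{p ∈ ({p : Fin n × Fin n | p.1 < p.2 ∧ (σ * io h π) p.2 < (σ * io h π) p.1} :
        Finset _) | ¬ B p} =
      #{p ∈ ({p : Fin n × Fin n | p.1 < p.2 ∧ σ p.2 < σ p.1} : Finset _) | ¬ B p} := by
    apply Finset.card_equiv (Equiv.prodCongr (io h π) (io h π))
    rintro ⟨x, y⟩
    rw [Finset.mem_filter, Finset.mem_filter, Finset.mem_filter, Finset.mem_filter]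
    constructor
    · rintro ⟨⟨-, h1, h2⟩, h3⟩
      exact ⟨⟨Finset.mem_univ _, (io_lt h π x y h3).2 h1, h2⟩,
        fun h4 => h3 ⟨(io_mem h π x).1 h4.1, (io_mem h π y).1 h4.2⟩⟩
    · rintro ⟨⟨-, h1, h2⟩, h3⟩
      have h3' : ¬ B (x, y) := fun h4 => h3 ⟨(io_mem h π x).2 h4.1, (io_mem h π y).2 h4.2⟩
      exact ⟨⟨Finset.mem_univ _, (io_lt h π x y h3').1 h1, h2⟩, h3'⟩
  have e5 : #{p ∈ ({p : Fin n × Fin n | p.1 < p.2 ∧ (σ * io h π) p.2 < (σ * io h π) p.1} :
        Finset _) | B p} = inv π := by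
    rw [inv, ← Finset.card_map ((blk h).prodMap (blk h))]
    congr 1
    ext ⟨x, y⟩
    simp only [Finset.mem_filter, Finset.mem_univ, true_and, Finset.mem_map, Prod.exists, B,
      Function.Embedding.coe_prodMap, Prod.map_apply, Prod.mk.injEq]
    constructor
    · rintro ⟨⟨h1, h2⟩, ⟨a, rfl⟩, ⟨b, rfl⟩⟩
      refine ⟨a, b, ⟨?_, ?_⟩, rfl, rfl⟩
      · rw [Fin.lt_def, blk_val, blk_val] at h1
        rw [Fin.lt_def]; omega
      · rw [Equiv.Perm.mul_apply, Equiv.Perm.mul_apply, io_apply, io_apply] at h2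
        exact hσ.lt_iff_lt.1 h2
    · rintro ⟨a, b, ⟨h1, h2⟩, rfl, rfl⟩
      refine ⟨⟨?_, ?_⟩, ⟨a, rfl⟩, ⟨b, rfl⟩⟩
      · rw [Fin.lt_def] at h1
        rw [Fin.lt_def, blk_val, blk_val]; omega
      · rw [Equiv.Perm.mul_apply, Equiv.Perm.mul_apply, io_apply, io_apply]
        exact hσ h2
  rw [e1, e2, e3, e4, e5]
  omega

/-- Strictly monotone permutations of `Fin k` are trivial. -/
lemma perm_eq {k : ℕ} (π ρ : Equiv.Perm (Fin k)) (h : ∀ a b, π a < π b ↔ ρ a < ρ b) : π = ρ := by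
  have h1 : StrictMono (π * ρ⁻¹ : Equiv.Perm (Fin k)) := by
    intro a b hab
    rw [Equiv.Perm.mul_apply, Equiv.Perm.mul_apply, h]
    simpa using hab
  have h2 : (⇑(π * ρ⁻¹ : Equiv.Perm (Fin k)) : Fin k → Fin k) = id := by
    apply (StrictMono.range_inj h1 strictMono_id).1
    rw [Set.range_id, (Equiv.surjective _).range_eq]
  have h3 : π * ρ⁻¹ = 1 := Equiv.ext fun a => congrFun h2 a
  exact mul_inv_eq_one.1 h3

lemma occursAt_iff {k n i : ℕ} (h : i + k ≤ n) (π : Equiv.Perm (Fin k)) (τ : Equiv.Perm (Fin n)) :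
    OccursAt π τ i ↔ StrictMono ((τ * io h π⁻¹ : Equiv.Perm (Fin n)) ∘ blk h) := by
  constructor
  · rintro ⟨h', ho⟩ a b hab
    simp only [Function.comp_apply, Equiv.Perm.mul_apply, io_apply]
    exact (ho _ _).2 (by simpa using hab)
  · intro hm
    refine ⟨h, fun a b => ?_⟩
    have h1 := hm.lt_iff_lt (a := π a) (b := π b)
    have e : ∀ c, π⁻¹ (π c) = c := fun c => by simp
    simp only [Function.comp_apply, Equiv.Perm.mul_apply, io_apply, e] at h1
    exact h1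

end Pool.Agent.KS6_54.MU
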