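import Mathlib

set_option autoImplicit false

/-!
Products of the polynomials `1 + q + ⋯ + q ^ j` by lists of coefficients, and a test of
unimodality for lists of fractions.
-/

namespace Pool.Agent.KS6_54.MU

open Finset Polynomial

/-- Addition of lists. -/
def addL : List ℕ → List ℕ → List ℕ
  | [], m => m
  | l, [] => l
  | a :: l, b :: m => (a + b) :: addL l m

/-- `mulI i l` is the product with `1 + q + ⋯ + q ^ (i - 1)`. -/
def mulI : ℕ → List ℕ → List ℕ
  | 0, _ => []
  | i + 1, l => addL l (0 :: mulI i l)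

/-- `prodL k d` is the product of `1 + ⋯ + q ^ j` for `k ≤ j < k + d`. -/
def prodL (k : ℕ) : ℕ → List ℕ
  | 0 => [1]
  | d + 1 => mulI (k + d + 1) (prodL k d)

/-- The polynomial of a list. -/
noncomputable def toP : List ℕ → ℤ[X]
  | [] => 0
  | a :: l => C (a : ℤ) + X * toP l

lemma toP_add : ∀ l m : List ℕ, toP (addL l m) = toP l + toP m
  | [], m => by simp [addL, toP]
  | a :: l, [] => by simp [addL, toP]
  | a :: l, b :: m => by
    rw [addL, toP, toP, toP, toP_add l m]
    push_cast
    rw [map_add]
    ring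

lemma toP_mulI (i : ℕ) (l : List ℕ) : toP (mulI i l) = (∑ t ∈ range i, X ^ t) * toP l := by
  induction i with
  | zero => simp [mulI, toP]
  | succ i ih =>
    rw [mulI, toP_add, toP, ih, Finset.sum_range_succ']
    simp only [Nat.cast_zero, map_zero, zero_add, pow_zero, pow_succ]
    rw [← Finset.sum_mul]
    ring

lemma toP_prodL (k d : ℕ) : toP (prodL k d) = ∏ j ∈ Ico k (k + d), ∑ t ∈ range (j + 1), X ^ t := by
  induction d with
  | zero => simp [prodL, toP]
  | succ d ih =>
    rw [prodL, toP_mulI, ih, ← add_assoc, Finset.prod_Ico_succ_top (by omega), mul_comm]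

lemma toP_coeff : ∀ (l : List ℕ) (m : ℕ), (toP l).coeff m = (l.getD m 0 : ℕ)
  | [], m => by simp [toP]
  | a :: l, 0 => by simp [toP]
  | a :: l, m + 1 => by
    rw [toP, coeff_add, coeff_C_succ, coeff_X_mul, toP_coeff l m]
    simp

/-- The coefficients of `p` and, from the position `r` on, of `p'`, side by side. -/
def pairs (r : ℕ) (l m : List ℕ) : List (ℕ × ℕ) := l.zip (m.drop r)

/-- Test for a nonincreasing sequence of fractions. -/
def chkD : List (ℕ × ℕ) → Bool
  | p :: q :: l => Nat.ble (q.1 * p.2) (p.1 * q.2) && chkD (q :: l)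
  | _ => true

/-- Test for a unimodal sequence of fractions. -/
def chk : List (ℕ × ℕ) → Bool
  | p :: q :: l => (Nat.ble (p.1 * q.2) (q.1 * p.2) && chk (q :: l)) || chkD (p :: q :: l)
  | _ => true

end Pool.Agent.KS6_54.MU
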