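import Pool.Agent.KS6_54.MU.Inv

set_option autoImplicit false

/-!
Generating functions of the number of inversions.
-/

namespace Pool.Agent.KS6_54.MU

open Finset Polynomial

/-- The generating function of the inversions of the permutations of length `n`. -/
noncomputable def P (n : ℕ) : ℤ[X] := ∑ σ : Equiv.Perm (Fin n), X ^ inv σ

open Classical in
/-- The same for the permutations which are increasing on a block. -/
noncomputable def Cb {k n i : ℕ} (h : i + k ≤ n) : ℤ[X] :=
  ∑ σ ∈ Finset.filter (fun σ : Equiv.Perm (Fin n) => StrictMono (σ ∘ blk h)) univ, X ^ inv σ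

open Classical in
lemma occ_gf {k n i : ℕ} (h : i + k ≤ n) (π : Equiv.Perm (Fin k)) :
    (∑ τ : Equiv.Perm (Fin n) with OccursAt π τ i, X ^ inv τ : ℤ[X]) = X ^ inv π * Cb h := by
  rw [Cb, Finset.mul_sum]
  symm
  apply Finset.sum_bij' (fun σ _ => σ * io h π) (fun τ _ => τ * io h π⁻¹)
  · intro σ hσ
    rw [Finset.mem_filter] at hσ ⊢
    refine ⟨Finset.mem_univ _, ?_⟩
    rw [occursAt_iff h, mul_assoc, ← map_mul, mul_inv_cancel, map_one, mul_one]
    exact hσ.2
  · intro τ hτ
    rw [Finset.mem_filter] at hτ ⊢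
    exact ⟨Finset.mem_univ _, (occursAt_iff h π τ).1 hτ.2⟩
  · intro σ _
    rw [mul_assoc, ← map_mul, mul_inv_cancel, map_one, mul_one]
  · intro τ _
    rw [mul_assoc, ← map_mul, inv_mul_cancel, map_one, mul_one]
  · intro σ hσ
    rw [Finset.mem_filter] at hσ
    rw [inv_mul h σ π hσ.2, pow_add, mul_comm]

lemma occ_pat {k n i : ℕ} (h : i + k ≤ n) (π : Equiv.Perm (Fin k)) (τ : Equiv.Perm (Fin n)) :
    (Tuple.sort (τ ∘ blk h))⁻¹ = π ↔ OccursAt π τ i := by
  have h1 : OccursAt (Tuple.sort (τ ∘ blk h))⁻¹ τ i := by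
    rw [occursAt_iff h, inv_inv]
    have h2 := Tuple.monotone_sort (τ ∘ blk h)
    have h3 : StrictMono ((τ ∘ blk h) ∘ Tuple.sort (τ ∘ blk h)) :=
      h2.strictMono_of_injective
        ((τ.injective.comp (blk h).injective).comp (Equiv.injective _))
    intro a b hab
    have := h3 hab
    simp only [Function.comp_apply, Equiv.Perm.mul_apply, io_apply] at this ⊢
    exact this
  constructor
  · rintro rfl
    exact h1
  · intro h2
    obtain ⟨_, h1⟩ := h1
    obtain ⟨_, h2⟩ := h2
    exact perm_eq _ _ fun a b => (h1 a b).symm.trans (h2 a b)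

open Classical in
lemma P_eq {k n i : ℕ} (h : i + k ≤ n) : P n = P k * Cb h := by
  rw [P, ← Finset.sum_fiberwise _ (fun τ : Equiv.Perm (Fin n) => (Tuple.sort (τ ∘ blk h))⁻¹)]
  rw [P, Finset.sum_mul]
  apply Finset.sum_congr rfl
  intro π _
  rw [← occ_gf h π]
  apply Finset.sum_congr _ fun _ _ => rfl
  ext τ
  rw [Finset.mem_filter, Finset.mem_filter, occ_pat h]

lemma P_ne (n : ℕ) : P n ≠ 0 := by
  intro h
  have h1 : (P n).eval 1 = 0 := by rw [h]; simp
  rw [P, Polynomial.eval_finsetSum] at h1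
  simp only [Polynomial.eval_pow, Polynomial.eval_X, one_pow, Finset.sum_const, nsmul_eq_mul,
    mul_one, Finset.card_univ, Fintype.card_perm, Fintype.card_fin] at h1
  exact absurd h1 (by exact_mod_cast (Nat.factorial_pos n).ne')

/-- The polynomial `1 + q + ⋯ + q ^ j`. -/
noncomputable def qi (j : ℕ) : ℤ[X] := ∑ t ∈ range (j + 1), X ^ t

/-- The permutation with the last value `v` which is increasing on the other positions. -/
def lastP {n : ℕ} (v : Fin (n + 1)) : Equiv.Perm (Fin (n + 1)) :=
  finSuccEquivLast.trans (finSuccEquiv' v).symm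

lemma lastP_cs {n : ℕ} (v : Fin (n + 1)) (a : Fin n) : lastP v a.castSucc = v.succAbove a := by
  simp [lastP]

lemma lastP_last {n : ℕ} (v : Fin (n + 1)) : lastP v (Fin.last n) = v := by
  simp [lastP]

lemma card_ge (n v : ℕ) : #{a : Fin n | v ≤ (a : ℕ)} = n - v := by
  rw [Finset.card_filter, Fin.sum_univ_eq_sum_range (fun a => if v ≤ a then 1 else 0),
    ← Finset.card_filter]
  have : (range n).filter (fun a => v ≤ a) = Ico v n := by
    ext a
    simp only [Finset.mem_filter, Finset.mem_range, Finset.mem_Ico]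
    omega
  rw [this, Nat.card_Ico]

lemma inv_lastP {n : ℕ} (v : Fin (n + 1)) : inv (lastP v) = n - v := by
  rw [← card_ge n v, inv]
  symm
  rw [← Finset.card_map ⟨fun a : Fin n => (a.castSucc, Fin.last n), fun a b hab => by
    simpa using hab⟩]
  congr 1
  ext ⟨x, y⟩
  simp only [Finset.mem_map, Finset.mem_filter, Finset.mem_univ, true_and]
  constructor
  · rintro ⟨a, ha, rfl, rfl⟩
    refine ⟨Fin.castSucc_lt_last a, ?_⟩
    rw [lastP_last, lastP_cs, Fin.lt_succAbove_iff_le_castSucc, Fin.le_def]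
    exact ha
  · rintro ⟨h1, h2⟩
    have hx : x ≠ Fin.last n := (h1.trans_le (Fin.le_last y)).ne
    obtain ⟨a, rfl⟩ := Fin.exists_castSucc_eq.2 hx
    rcases Fin.eq_castSucc_or_eq_last y with ⟨b, rfl⟩ | rfl
    · exfalso
      rw [lastP_cs, lastP_cs] at h2
      have h3 := (Fin.strictMono_succAbove v).lt_iff_lt.1 h2
      rw [Fin.lt_def] at h1 h3
      simp only [Fin.val_castSucc] at h1
      omega
    · refine ⟨a, ?_, rfl⟩
      rw [lastP_last, lastP_cs, Fin.lt_succAbove_iff_le_castSucc, Fin.le_def] at h2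
      exact h2

open Classical in
lemma Cb_last (n : ℕ) (h : 0 + n ≤ n + 1) : Cb h = qi n := by
  have hb : ∀ a : Fin n, blk h a = a.castSucc := fun a => Fin.ext (by rw [blk_val]; simp)
  have key : (∑ v : Fin (n + 1), (X : ℤ[X]) ^ (n - (v : ℕ))) = Cb h := by
    rw [Cb]
    apply Finset.sum_bij' (fun v _ => lastP v) (fun σ _ => σ (Fin.last n))
    · intro v _
      rw [Finset.mem_filter]
      refine ⟨Finset.mem_univ _, ?_⟩
      intro a b hab
      rw [Function.comp_apply, Function.comp_apply, hb, hb, lastP_cs, lastP_cs]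
      exact Fin.strictMono_succAbove v hab
    · intro σ _
      exact Finset.mem_univ _
    · intro v _
      exact lastP_last v
    · intro σ hσ
      rw [Finset.mem_filter] at hσ
      have h1 : (σ ∘ blk h) = (σ (Fin.last n)).succAbove := by
        apply (StrictMono.range_inj hσ.2 (Fin.strictMono_succAbove _)).1
        rw [Fin.range_succAbove]
        ext y
        rw [Set.mem_range, Set.mem_compl_iff, Set.mem_singleton_iff]
        constructor
        · rintro ⟨a, rfl⟩ he
          rw [Function.comp_apply, hb] at he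
          exact (Fin.castSucc_lt_last a).ne (σ.injective he)
        · intro hy
          obtain ⟨x, rfl⟩ := σ.surjective y
          have hx : x ≠ Fin.last n := fun e => hy (by rw [e])
          obtain ⟨a, rfl⟩ := Fin.exists_castSucc_eq.2 hx
          exact ⟨a, by rw [Function.comp_apply, hb]⟩
      apply Equiv.ext
      intro x
      rcases Fin.eq_castSucc_or_eq_last x with ⟨b, rfl⟩ | rfl
      · rw [lastP_cs, ← h1, Function.comp_apply, hb]
      · rw [lastP_last]
    · intro v _
      rw [inv_lastP]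
  rw [← key, Fin.sum_univ_eq_sum_range (fun v => (X : ℤ[X]) ^ (n - v)), qi]
  rw [← Finset.sum_range_reflect]
  apply Finset.sum_congr rfl
  intro t ht
  rw [Finset.mem_range] at ht
  congr 1
  omega

lemma P_zero : P 0 = 1 := by
  rw [P, Fintype.sum_unique]
  have : inv (default : Equiv.Perm (Fin 0)) = 0 := by
    rw [inv, Finset.card_eq_zero]
    exact Finset.eq_empty_of_isEmpty _
  rw [this, pow_zero]

lemma P_prod (n : ℕ) : P n = ∏ j ∈ range n, qi j := by
  induction n with
  | zero => rw [P_zero, Finset.range_zero, Finset.prod_empty]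
  | succ n ih =>
    rw [P_eq (show 0 + n ≤ n + 1 by omega), Cb_last, ih, Finset.prod_range_succ]

lemma Cb_eq {k n i : ℕ} (h : i + k ≤ n) : Cb h = ∏ j ∈ Ico k n, qi j := by
  have h1 := P_eq h
  rw [P_prod n, ← Finset.prod_range_mul_prod_Ico _ (show k ≤ n by omega), ← P_prod k] at h1
  exact (mul_left_cancel₀ (P_ne k) h1).symm

lemma coeff_sum {n : ℕ} (S : Finset (Equiv.Perm (Fin n))) (m : ℕ) :
    (∑ σ ∈ S, (X : ℤ[X]) ^ inv σ).coeff m = (#{σ ∈ S | inv σ = m} : ℕ) := by
  rw [Polynomial.finsetSum_coeff, Finset.card_filter]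
  push_cast
  apply Finset.sum_congr rfl
  intro σ _
  rw [Polynomial.coeff_X_pow]
  simp only [eq_comm]

end Pool.Agent.KS6_54.MU
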