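import Pool.Agent.KS6_54.MU.Exp
import Pool.Agent.KS6_54.MU.Num

set_option autoImplicit false

/-!
The test of unimodality is correct.
-/

namespace Pool.Agent.KS6_54.MU

open Finset Polynomial

/-- The sequence `f 0, …, f N` is unimodal. -/
def Unimodal (N : ℕ) (f : ℕ → ℚ) : Prop :=
  ∃ j ≤ N, (∀ i < j, f i ≤ f (i + 1)) ∧ ∀ i, j ≤ i → i < N → f (i + 1) ≤ f i

/-- The fractions of a list. -/
def F (l : List (ℕ × ℕ)) (i : ℕ) : ℚ := ((l.getD i (0, 1)).1 : ℚ) / ((l.getD i (0, 1)).2 : ℚ)

lemma F_succ (p : ℕ × ℕ) (l : List (ℕ × ℕ)) (i : ℕ) : F (p :: l) (i + 1) = F l i := by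
  simp [F]

lemma F_zero (p : ℕ × ℕ) (l : List (ℕ × ℕ)) : F (p :: l) 0 = (p.1 : ℚ) / (p.2 : ℚ) := by
  simp [F]

lemma le_frac {a b c d : ℕ} (hb : 0 < b) (hd : 0 < d) :
    (a : ℚ) / b ≤ (c : ℚ) / d ↔ a * d ≤ c * b := by
  rw [div_le_div_iff₀ (by exact_mod_cast hb) (by exact_mod_cast hd)]
  exact_mod_cast Iff.rfl

lemma chkD_iff : ∀ l : List (ℕ × ℕ), (∀ p ∈ l, 0 < p.2) →
    (chkD l = true ↔ ∀ i, i + 1 < l.length → F l (i + 1) ≤ F l i)
  | [], _ => by simp [chkD]
  | [p], _ => by simp [chkD]
  | p :: q :: l, h => by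
    have hp : 0 < p.2 := h p (by simp)
    have hq : 0 < q.2 := h q (by simp)
    have ih := chkD_iff (q :: l) fun x hx => h x (List.mem_cons_of_mem _ hx)
    rw [chkD, Bool.and_eq_true, Nat.ble_eq, ih, ← le_frac hq hp]
    constructor
    · rintro ⟨h1, h2⟩ i hi
      cases i with
      | zero => rw [F_succ, F_zero, F_zero]; exact h1
      | succ i =>
        rw [F_succ, F_succ]
        exact h2 i (by simpa using hi)
    · intro h1
      refine ⟨?_, fun i hi => ?_⟩
      · have := h1 0 (by simp)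
        rwa [F_succ, F_zero, F_zero] at this
      · have := h1 (i + 1) (by simpa using hi)
        rwa [F_succ, F_succ] at this

lemma chk_iff : ∀ l : List (ℕ × ℕ), (∀ p ∈ l, 0 < p.2) →
    (chk l = true ↔ ∃ j, (∀ i < j, i + 1 < l.length → F l i ≤ F l (i + 1)) ∧
      ∀ i, j ≤ i → i + 1 < l.length → F l (i + 1) ≤ F l i)
  | [], _ => by simp [chk]
  | [p], _ => by simp [chk]
  | p :: q :: l, h => by
    have hp : 0 < p.2 := h p (by simp)
    have hq : 0 < q.2 := h q (by simp)
    have ih := chk_iff (q :: l) fun x hx => h x (List.mem_cons_of_mem _ hx)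
    rw [chk, Bool.or_eq_true, Bool.and_eq_true, Nat.ble_eq, ih, ← le_frac hp hq, chkD_iff _ h]
    constructor
    · rintro (⟨h1, j, h2, h3⟩ | h1)
      · refine ⟨j + 1, fun i hi hl => ?_, fun i hi hl => ?_⟩
        · cases i with
          | zero => rw [F_succ, F_zero, F_zero]; exact h1
          | succ i =>
            rw [F_succ, F_succ]
            exact h2 i (by omega) (by simpa using hl)
        · cases i with
          | zero => omega
          | succ i =>
            rw [F_succ, F_succ]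
            exact h3 i (by omega) (by simpa using hl)
      · exact ⟨0, fun i hi => absurd hi (Nat.not_lt_zero i), fun i _ => h1 i⟩
    · rintro ⟨j, h1, h2⟩
      cases j with
      | zero => exact Or.inr fun i hi => h2 i (Nat.zero_le i) hi
      | succ j =>
        refine Or.inl ⟨?_, j, fun i hi hl => ?_, fun i hi hl => ?_⟩
        · have := h1 0 (Nat.succ_pos j) (by simp)
          rwa [F_succ, F_zero, F_zero] at this
        · have := h1 (i + 1) (by omega) (by simpa using hl)
          rwa [F_succ, F_succ] at this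
        · have := h2 (i + 1) (by omega) (by simpa using hl)
          rwa [F_succ, F_succ] at this

lemma length_pairs (r : ℕ) (l m : List ℕ) (h : r + l.length ≤ m.length) :
    (pairs r l m).length = l.length := by
  rw [pairs, List.length_zip, List.length_drop]
  omega

lemma getD_pairs (r : ℕ) (l m : List ℕ) (h : r + l.length ≤ m.length) (i : ℕ)
    (hi : i < l.length) : (pairs r l m).getD i (0, 1) = (l.getD i 0, m.getD (r + i) 0) := by
  have h2 : i < (pairs r l m).length := by rw [length_pairs r l m h]; exact hi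
  rw [List.getD_eq_getElem _ _ h2, List.getD_eq_getElem _ _ hi,
    List.getD_eq_getElem _ _ (by omega)]
  simp only [pairs, List.getElem_zip, List.getElem_drop]

/-- The side conditions for the list of the numbers of permutations. -/
def good (n : ℕ) (D : List ℕ) : Bool :=
  Nat.beq D.length (n * (n - 1) / 2 + 1) && D.all (fun x => Nat.blt 0 x)

lemma qi_prod (n : ℕ) : toP (prodL 0 n) = ∏ j ∈ range n, qi j := by
  rw [toP_prodL, zero_add, Finset.range_eq_Ico]
  rfl

lemma test_iff {k n : ℕ} (hk : k ≤ n) (hg : good n (prodL 0 n) = true)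
    (π : Equiv.Perm (Fin k))
    (hl : inv π + (prodL k (n - k)).length ≤ (prodL 0 n).length)
    (hl1 : 1 ≤ (prodL k (n - k)).length) :
    chk (pairs (inv π) (prodL k (n - k)) (prodL 0 n)) = true ↔
      Unimodal (n.choose 2) (fun m => E n m π) := by
  rw [good, Bool.and_eq_true, Nat.beq_eq, List.all_eq_true] at hg
  obtain ⟨hlen, hpos⟩ := hg
  rw [← Nat.choose_two_right] at hlen
  obtain ⟨r, hr⟩ : ∃ r, r = inv π := ⟨_, rfl⟩
  obtain ⟨A, hA⟩ : ∃ A, A = prodL k (n - k) := ⟨_, rfl⟩
  obtain ⟨D, hD⟩ : ∃ D, D = prodL 0 n := ⟨_, rfl⟩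
  rw [← hD] at hlen hpos
  rw [← hr, ← hA, ← hD] at hl ⊢
  rw [← hA] at hl1
  have hpos' : ∀ p ∈ pairs r A D, 0 < p.2 := by
    intro p hp
    have := hpos p.2 (List.mem_of_mem_drop (List.of_mem_zip (l₁ := A) (a := p.1) hp).2)
    simpa using this
  rw [chk_iff _ hpos', length_pairs _ _ _ hl]
  have hc : (0 : ℚ) < (n : ℚ) + 1 - k := by
    have : (k : ℚ) ≤ n := by exact_mod_cast hk
    linarith
  have hE : ∀ m, E n m π = ((n : ℚ) + 1 - k) *
      ((if r ≤ m then A.getD (m - r) 0 else 0 : ℕ) : ℚ) / ((D.getD m 0 : ℕ) : ℚ) := by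
    intro m
    rw [E_eq hk, ← hr]
    congr 1
    · congr 1
      have h1 := toP_coeff A (m - r)
      rw [hA, toP_prodL, show k + (n - k) = n by omega, ← hA] at h1
      rw [coeff_X_pow_mul']
      split_ifs with h
      · have h2 := congrArg (fun z : ℤ => (z : ℚ)) h1
        simp only [Int.cast_natCast] at h2
        exact h2
      · simp
    · have h1 := toP_coeff D m
      rw [hD, qi_prod, ← hD] at h1
      have h2 := congrArg (fun z : ℤ => (z : ℚ)) h1
      simp only [Int.cast_natCast] at h2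
      exact h2
  have hE1 : ∀ i, i < A.length → E n (r + i) π = ((n : ℚ) + 1 - k) * F (pairs r A D) i := by
    intro i hi
    rw [hE, F, getD_pairs r A D hl i hi, if_pos (by omega), show r + i - r = i by omega,
      mul_div_assoc]
  have hE0 : ∀ m, m < r → E n m π = 0 := by
    intro m hm
    rw [hE, if_neg (by omega)]
    simp
  have hE2 : ∀ m, r + A.length ≤ m → E n m π = 0 := by
    intro m hm
    rw [hE, if_pos (by omega), List.getD_eq_default _ _ (by omega)]
    simp
  have hE3 : ∀ m, 0 ≤ E n m π := by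
    intro m
    rw [hE]
    exact div_nonneg (mul_nonneg hc.le (Nat.cast_nonneg _)) (Nat.cast_nonneg _)
  have hle : ∀ a b, a < A.length → b < A.length → (E n (r + a) π ≤ E n (r + b) π ↔
      F (pairs r A D) a ≤ F (pairs r A D) b) := by
    intro a b ha hb
    rw [hE1 a ha, hE1 b hb]
    exact mul_le_mul_iff_right₀ hc
  constructor
  · rintro ⟨j, h1, h2⟩
    obtain ⟨j', hj'⟩ : ∃ j', j' = min j (A.length - 1) := ⟨_, rfl⟩
    refine ⟨r + j', by omega, fun i hi => ?_, fun i hi hl' => ?_⟩
    · rcases lt_or_ge i r with h | h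
      · simp only
        rw [hE0 i h]
        exact hE3 _
      · have := (hle (i - r) (i - r + 1) (by omega) (by omega)).2 (h1 (i - r) (by omega) (by omega))
        rwa [show r + (i - r) = i by omega, show r + (i - r + 1) = i + 1 by omega] at this
    · rcases lt_or_ge (i + 1) (r + A.length) with h | h
      · have := (hle (i - r + 1) (i - r) (by omega) (by omega)).2 (h2 (i - r) (by omega) (by omega))
        rwa [show r + (i - r) = i by omega, show r + (i - r + 1) = i + 1 by omega] at this
      · simp only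
        rw [hE2 (i + 1) h]
        exact hE3 _
  · rintro ⟨j, hj, h1, h2⟩
    refine ⟨j - r, fun i hi hl' => ?_, fun i hi hl' => ?_⟩
    · exact (hle i (i + 1) (by omega) (by omega)).1 (h1 (r + i) (by omega))
    · exact (hle (i + 1) i (by omega) (by omega)).1 (h2 (r + i) (by omega) (by omega))

lemma inv_le {k : ℕ} (hg : good k (prodL 0 k) = true) (π : Equiv.Perm (Fin k)) :
    inv π ≤ k * (k - 1) / 2 := by
  rw [good, Bool.and_eq_true, Nat.beq_eq] at hg
  by_contra hlt
  have h1 := cnt k (inv π)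
  rw [← qi_prod, toP_coeff, List.getD_eq_default _ _ (by omega)] at h1
  have h2 : #{σ : Equiv.Perm (Fin k) | inv σ = inv π} = 0 := by exact_mod_cast h1
  rw [Finset.card_eq_zero, Finset.filter_eq_empty_iff] at h2
  exact h2 (Finset.mem_univ π) rfl

lemma exists_inv {k r : ℕ} (h : Nat.blt 0 ((prodL 0 k).getD r 0) = true) :
    ∃ π : Equiv.Perm (Fin k), inv π = r := by
  have h1 := cnt k r
  rw [← qi_prod, toP_coeff] at h1
  have h2 : 0 < #{σ : Equiv.Perm (Fin k) | inv σ = r} := by
    have h3 : (prodL 0 k).getD r 0 = #{σ : Equiv.Perm (Fin k) | inv σ = r} := by exact_mod_cast h1.symm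
    rw [← h3]
    simpa using h
  obtain ⟨π, hπ⟩ := Finset.card_pos.1 h2
  exact ⟨π, (Finset.mem_filter.1 hπ).2⟩

/-- The exceptional pairs (length of the pattern, number of inversions of the pattern), up to the
symmetry `r ↦ k (k - 1) / 2 - r`. -/
def T : List (ℕ × ℕ) := [(5, 4), (6, 6), (8, 11), (9, 15), (11, 23), (12, 27), (13, 32), (14, 38),
  (15, 44), (16, 50), (17, 57), (19, 72), (21, 89), (22, 98), (27, 150)]

/-- The pattern lengths and numbers of inversions of the exceptions, as a test. -/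
def isT (k n r : ℕ) : Bool :=
  Nat.beq n (k + 2) && T.any (fun p => Nat.beq p.1 k &&
    (Nat.beq r p.2 || Nat.beq (r + p.2) (k * (k - 1) / 2)))

lemma isT_iff (k n r : ℕ) : isT k n r = true ↔
    ∃ p ∈ T, p.1 = k ∧ n = k + 2 ∧ (r = p.2 ∨ r + p.2 = k.choose 2) := by
  rw [isT, Bool.and_eq_true, Nat.beq_eq, List.any_eq_true, Nat.choose_two_right]
  simp only [Bool.and_eq_true, Bool.or_eq_true, Nat.beq_eq]
  constructor
  · rintro ⟨h1, p, hp, h2, h3⟩
    exact ⟨p, hp, h2, h1, h3⟩
  · rintro ⟨p, hp, h2, h1, h3⟩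
    exact ⟨h1, p, hp, h2, h3⟩

/-- The complete test for the patterns of length `k` in permutations of length `n`. -/
def ok' (k n : ℕ) (A B D : List ℕ) : Bool :=
  (good n D && (good k B && (Nat.ble 1 A.length &&
    Nat.ble (k * (k - 1) / 2 + A.length) D.length))) && (List.range (k * (k - 1) / 2 + 1)).all
    (fun r => Bool.xor (chk (pairs r A D)) (isT k n r))

/-- The complete test for the patterns of length `k` in permutations of length `n`. -/
def ok (k n : ℕ) : Bool := ok' k n (prodL k (n - k)) (prodL 0 k) (prodL 0 n)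

theorem ok_sound {k n : ℕ} (hk : k ≤ n) (h : ok k n = true) (π : Equiv.Perm (Fin k)) :
    Unimodal (n.choose 2) (fun m => E n m π) ↔
      ¬ ∃ p ∈ T, p.1 = k ∧ n = k + 2 ∧ (inv π = p.2 ∨ inv π + p.2 = k.choose 2) := by
  rw [ok, ok', Bool.and_eq_true, Bool.and_eq_true, Bool.and_eq_true, Bool.and_eq_true,
    List.all_eq_true, Nat.ble_eq, Nat.ble_eq] at h
  obtain ⟨⟨h1, h2, h5, h6⟩, h3⟩ := h
  have h7 := inv_le h2 π
  have h4 := h3 (inv π) (List.mem_range.2 (by omega))
  rw [← test_iff hk h1 π (by omega) h5, ← isT_iff]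
  cases hx : chk (pairs (inv π) (prodL k (n - k)) (prodL 0 n)) <;>
    cases hy : isT k n (inv π) <;> simp_all

end Pool.Agent.KS6_54.MU
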